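import Mathlib

open Polynomial in
/-- The quadrinomial `x^45 + x^43 + x^42 + a` with `a = -(2/3)^42/27` has the double root `-2/3`. -/
theorem Pool.Agent.Results.MP_21e947_nt.Counter.result :
    ∃ (a : ℚ) (n m k : ℕ), a ≠ 0 ∧ 1 ≤ k ∧ k < m ∧ m < n ∧
      (∃ θ : ℂ, 2 ≤ rootMultiplicity θ (X ^ n + X ^ m + X ^ k + C (a : ℂ) : ℂ[X])) ∧
      a ≠ 1 ∧
      ¬ ∃ d t u : ℕ, 1 ≤ d ∧ Odd t ∧ Odd u ∧ 1 ≤ u ∧ u < t ∧
        n = d * (t + u) ∧ m = d * t ∧ k = d * u := by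
  refine ⟨-(2 / 3) ^ 42 / 27, 45, 43, 42, by norm_num, by norm_num, by norm_num, by norm_num,
    ⟨-2 / 3, ?_⟩, by norm_num, ?_⟩
  · have hne : (X ^ 45 + X ^ 43 + X ^ 42 + C (((-(2 / 3) ^ 42 / 27 : ℚ)) : ℂ) : ℂ[X]) ≠ 0 := by
      intro h
      have := congrArg (fun p => coeff p 45) h
      simp [coeff_X_pow, coeff_C] at this
    refine (one_lt_rootMultiplicity_iff_isRoot hne).2 ⟨?_, ?_⟩
    · simp only [IsRoot.def, eval_add, eval_pow, eval_X, eval_C]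
      push_cast
      norm_num
    · simp only [IsRoot.def, derivative_add, derivative_X_pow, derivative_C, eval_add, eval_mul,
        eval_pow, eval_X, eval_C, eval_zero]
      norm_num
  · rintro ⟨d, t, u, -, -, -, -, -, h1, h2, h3⟩
    rw [mul_add] at h1
    omega
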